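import Pool.Agent.H22.Krek.WinT

/-!
# Gradings of `ZMod n` with given support: derived length and class
-/

set_option autoImplicit false

namespace Pool.Agent.H22.Krek

open Pool.Agent.H75.Krek Pool.Agent.H24.Krek

variable {L : Type*} [LieRing L]

theorem B_leT (d J : ℕ) : B d J + 5 * d ≤ 6 * d * (d * Nat.clog 2 (d + 1)) ^ J := by
  rcases Nat.eq_zero_or_pos d with rfl | hd
  · cases J <;> simp [B]
  have hc1 : 1 ≤ Nat.clog 2 (d + 1) := Nat.clog_pos (by norm_num) (by omega)
  have hcm : Nat.clog 2 d ≤ Nat.clog 2 (d + 1) := Nat.clog_mono_right 2 (Nat.le_succ d)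
  induction J with
  | zero => simp only [B, pow_zero]; omega
  | succ J ih =>
    set A := d * Nat.clog 2 (d + 1) with hA
    rcases Nat.lt_or_ge d 2 with h2 | h2
    · have hd1 : d = 1 := by omega
      subst hd1
      have hclog1 : Nat.clog 2 1 = 0 := by simp
      have hA1 : 1 ≤ A := by rw [hA]; omega
      have h3 : 1 ≤ A ^ (J + 1) := Nat.one_le_pow _ _ hA1
      simp only [B, hclog1]
      omega
    have hA2 : 2 ≤ A := by
      calc 2 ≤ d := h2
        _ = d * 1 := (mul_one d).symm
        _ ≤ A := Nat.mul_le_mul_left _ hc1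
    have h1 : B d (J + 1) ≤ d + A * B d J + 2 * d * A := by
      simp only [B]
      have : (B d J + 2 * d) * Nat.clog 2 d ≤ (B d J + 2 * d) * Nat.clog 2 (d + 1) :=
        Nat.mul_le_mul_left _ hcm
      calc d * (1 + (B d J + 2 * d) * Nat.clog 2 d)
          ≤ d * (1 + (B d J + 2 * d) * Nat.clog 2 (d + 1)) :=
            Nat.mul_le_mul_left _ (by omega)
        _ = d + A * B d J + 2 * d * A := by rw [hA]; ring
    rw [pow_succ]
    have h2' : A * (B d J + 5 * d) ≤ A * (6 * d * A ^ J) := Nat.mul_le_mul_left _ ih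
    have h3 : 6 * d * (A ^ J * A) = A * (6 * d * A ^ J) := by ring
    rw [h3]
    refine le_trans ?_ h2'
    have h4 : 6 * d ≤ 3 * d * A := by nlinarith
    nlinarith

theorem mem_win_one {n : ℕ} [NeZero n] {m : ℕ} (hm : m + 1 ≤ n) (i : ZMod n) :
    i ∈ win n 1 m ↔ 1 ≤ i.val ∧ i.val ≤ m := by
  have hnpos : 0 < n := by omega
  rw [mem_win]
  by_cases hi : i = 0
  · subst hi
    have h2 : (0 : ZMod n) - 1 = ((n - 1 : ℕ) : ZMod n) := by
      rw [Nat.cast_sub (by omega), CharP.cast_eq_zero, Nat.cast_one]
    rw [h2, ZMod.val_natCast, Nat.mod_eq_of_lt (by omega), ZMod.val_zero]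
    omega
  · have h1 : i.val ≠ 0 := fun h0 => hi ((ZMod.val_eq_zero i).1 h0)
    have h2 : i - 1 = ((i.val - 1 : ℕ) : ZMod n) := by
      rw [Nat.cast_sub (by omega), ZMod.natCast_val, ZMod.cast_id', id_eq, Nat.cast_one]
    have h3 : i.val < n := ZMod.val_lt i
    rw [h2, ZMod.val_natCast, Nat.mod_eq_of_lt (by omega)]
    omega

/-- the whole group, by doubling -/
theorem PT_all {n : ℕ} [NeZero n] (hn : 2 ≤ n) (T : Finset (ZMod n)) (hT : (0 : ZMod n) ∉ T)
    (J : ℕ) (hJ : n + 1 ≤ 2 ^ J * (n / n.minFac + 1)) :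
    PT L (T : Set (ZMod n)) (win n 1 (n - 1) : Set (ZMod n))
      (2 ^ (min (n / n.minFac - 1) T.card) * (B T.card J + 1) - 1) := by
  classical
  have hT' : (0 : ZMod n) ∉ (T : Set (ZMod n)) := by exact_mod_cast hT
  set g := n / n.minFac with hg
  have hgpos : 1 ≤ g := Nat.div_pos (Nat.minFac_le (by omega)) (Nat.minFac_pos n)
  have hgn : g + 1 ≤ n := by
    have : g < n := Nat.div_lt_self (by omega) (Nat.minFac_prime (by omega)).one_lt
    omega
  have hAF : ∀ g' a, g ≤ g' →
      AF (T : Set (ZMod n)) ((win n a (n - g') ∩ T : Finset (ZMod n)) : Set (ZMod n)) := by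
    intro g' a hg'
    intro p hp i hi
    have hi0 : i ≠ 0 := fun h => hT (by rw [← h]; exact_mod_cast hi)
    have hp' : p ∈ win n a (n - g') := (Finset.mem_inter.1 hp).1
    by_cases hgn' : g' < n
    · obtain ⟨m, hm⟩ := win_CF (a := a) hn (l := n - g') (g := g') (by omega) hg' p hp' i hi0
      exact ⟨m, fun h => hm (Finset.mem_inter.1 h).1⟩
    · have := mem_win.1 hp'
      omega
  set e : ℕ → ℕ := fun m => (T.filter fun i => n - g < i.val ∧ i.val ≤ n - g + m).card with he
  have key : ∀ m : ℕ, m + 1 ≤ g →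
      PT L (T : Set (ZMod n)) (win n 1 (n - g + m) : Set (ZMod n))
        (2 ^ e m * (B T.card J + 1) - 1) := by
    intro m
    induction m with
    | zero =>
      intro _
      have := PT_win (L := L) T hT g hAF J g 1 le_rfl hJ
      refine this.mono le_rfl ?_
      have h1 : 1 ≤ 2 ^ e 0 := Nat.one_le_two_pow
      have h2 : 1 * (B T.card J + 1) ≤ 2 ^ e 0 * (B T.card J + 1) := Nat.mul_le_mul_right _ h1
      omega
    | succ m ih =>
      intro hm
      have h1 := ih (by omega)
      have hkval : (((n - g + (m + 1) : ℕ) : ZMod n)).val = n - g + (m + 1) := by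
        rw [ZMod.val_natCast, Nat.mod_eq_of_lt (by omega)]
      by_cases hk : ((n - g + (m + 1) : ℕ) : ZMod n) ∈ T
      · have hlt : e m + 1 ≤ e (m + 1) := by
          have hsub : insert ((n - g + (m + 1) : ℕ) : ZMod n)
              (T.filter fun i => n - g < i.val ∧ i.val ≤ n - g + m) ⊆
              T.filter fun i => n - g < i.val ∧ i.val ≤ n - g + (m + 1) := by
            intro i hi
            rcases Finset.mem_insert.1 hi with h | h
            · subst h
              exact Finset.mem_filter.2 ⟨hk, by rw [hkval]; omega⟩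
            · obtain ⟨h2, h3⟩ := Finset.mem_filter.1 h
              exact Finset.mem_filter.2 ⟨h2, by omega⟩
          have hnot : ((n - g + (m + 1) : ℕ) : ZMod n) ∉
              (T.filter fun i => n - g < i.val ∧ i.val ≤ n - g + m) := by
            intro h
            have := (Finset.mem_filter.1 h).2.2
            rw [hkval] at this
            omega
          have := Finset.card_le_card hsub
          rw [Finset.card_insert_of_notMem hnot] at this
          exact this
        have h2 := PT_double (L := L) T hT' (k := n - g + (m + 1)) (by omega) (by omega)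
          (t := 2 ^ e m * (B T.card J + 1) - 1) (by
            have e : n - g + (m + 1) - 1 = n - g + m := by omega
            rw [e]; exact h1)
        refine h2.mono le_rfl ?_
        have h3 : 1 ≤ 2 ^ e m * (B T.card J + 1) := Nat.mul_pos (by positivity) (by omega)
        have h4 : 2 ^ (e m + 1) * (B T.card J + 1) = 2 * (2 ^ e m * (B T.card J + 1)) := by ring
        have h5 : 2 ^ (e m + 1) * (B T.card J + 1) ≤ 2 ^ e (m + 1) * (B T.card J + 1) :=
          Nat.mul_le_mul_right _ (Nat.pow_le_pow_right (by norm_num) hlt)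
        omega
      · refine PT.of_inter (S' := (win n 1 (n - g + m) : Set (ZMod n))) ?_ ?_
        · refine h1.mono le_rfl ?_
          have hle : e m ≤ e (m + 1) := by
            refine Finset.card_le_card ?_
            intro i hi
            obtain ⟨h2, h3⟩ := Finset.mem_filter.1 hi
            exact Finset.mem_filter.2 ⟨h2, by omega⟩
          have h5 : 2 ^ e m * (B T.card J + 1) ≤ 2 ^ e (m + 1) * (B T.card J + 1) :=
            Nat.mul_le_mul_right _ (Nat.pow_le_pow_right (by norm_num) hle)
          omega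
        · intro i hi hiT
          have h2 := (mem_win_one (by omega) i).1 hi
          refine (mem_win_one (by omega) i).2 ⟨h2.1, ?_⟩
          by_contra hcon
          have h3 : i.val = n - g + (m + 1) := by omega
          apply hk
          rw [← h3, ZMod.natCast_zmod_val]
          exact_mod_cast hiT
  have h5 := key (g - 1) (by omega)
  have e1 : n - g + (g - 1) = n - 1 := by omega
  rw [e1] at h5
  refine h5.mono le_rfl ?_
  have hle1 : e (g - 1) ≤ T.card := Finset.card_filter_le _ _
  have hle2 : e (g - 1) ≤ g - 1 := by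
    have hsub : (T.filter fun i => n - g < i.val ∧ i.val ≤ n - g + (g - 1)) ⊆
        (Finset.Ioc (n - g) (n - 1)).image (fun k : ℕ => (k : ZMod n)) := by
      intro i hi
      obtain ⟨_, h3⟩ := Finset.mem_filter.1 hi
      refine Finset.mem_image.2 ⟨i.val, Finset.mem_Ioc.2 ⟨h3.1, by omega⟩, ?_⟩
      rw [ZMod.natCast_zmod_val]
    have h6 := le_trans (Finset.card_le_card hsub) Finset.card_image_le
    rw [Nat.card_Ioc] at h6
    have h7 : e (g - 1) ≤ n - 1 - (n - g) := h6
    omega
  have hmin : e (g - 1) ≤ min (g - 1) T.card := le_min hle2 hle1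
  have h6 : 2 ^ e (g - 1) * (B T.card J + 1) ≤ 2 ^ (min (g - 1) T.card) * (B T.card J + 1) :=
    Nat.mul_le_mul_right _ (Nat.pow_le_pow_right (by norm_num) hmin)
  omega

/-- the class of a graded ring with arithmetically free support -/
theorem class_le {G : Type*} [AddCommGroup G] {T : Finset G} (hT : AF (T : Set G) (T : Set G))
    {X : G → AddSubgroup L} (hX : Closed X) (hX0 : ∀ i, i ∉ T → X i = ⊥) (s : ℕ) :
    act X X (∑ i ∈ Finset.range s, T.card ^ i) ≤ der X s := by
  induction s with
  | zero => exact le_rfl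
  | succ s ih =>
    rw [Finset.sum_range_succ, act_add]
    refine le_trans (act_mono ih le_rfl _) ?_
    refine solv_indexT (T := (T : Set G)) le_rfl hT s (der X s) (der X (s + 1)) X hX ?_
      (der_anti hX (Nat.le_succ s)) (star_der_le hX s) (star_der_le hX (s + 1)) ?_ le_rfl
    · intro i hi
      exact hX0 i (by exact_mod_cast hi)
    · intro i hi
      refine le_trans (der_le hX s i) ?_
      rw [hX0 i hi]
      exact bot_le

/-- the main theorem for families -/
theorem der_of_gap {n : ℕ} [NeZero n] {T : Finset (ZMod n)} (hT0 : (0 : ZMod n) ∉ T)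
    (hT : AF (T : Set (ZMod n)) (T : Set (ZMod n))) {g J : ℕ} (a : ZMod n)
    (hg : T ⊆ win n a (n - g)) (hJ : n + 1 ≤ 2 ^ J * (g + 1))
    {X : ZMod n → AddSubgroup L} (hX : Closed X) (hX0 : ∀ i, i ∉ T → X i = ⊥) :
    der X (B T.card J) ≤ fun _ => ⊥ := by
  refine PT_win T hT0 0 ?_ J g a (Nat.zero_le g) hJ X (fun _ => ⊥) hX ?_ ?_ (fun i => bot_le) ?_
  · intro g' a' _
    refine hT.mono ?_
    intro i hi
    exact (Finset.mem_inter.1 hi).2
  · intro i hi
    exact hX0 i (by exact_mod_cast hi)
  · refine closed_iff.2 ?_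
    intro i j x hx y hy
    have : x = 0 := hx
    subst this
    rw [zero_lie]; exact zero_mem _
  · intro i hi
    rw [hX0 i (fun h => hi (hg h))]

end Pool.Agent.H22.Krek
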