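import Pool.Agent.H75.Krek.Cyc

/-!
# The key step and the index lemmas, relative to the support of the grading
-/

set_option autoImplicit false

namespace Pool.Agent.H22.Krek

open Pool.Agent.H75.Krek

variable {L : Type*} [LieRing L] {G : Type*} [AddCommGroup G]

/-- `P S t` for families `X` with support in `T`. -/
def PT (L : Type*) [LieRing L] {G : Type*} [AddCommGroup G] (T S : Set G) (t : ℕ) : Prop :=
  ∀ X K : G → AddSubgroup L, Closed X → (∀ i, i ∉ T → X i = ⊥) → Closed K → K ≤ X →
    (∀ i, i ∉ S → X i ≤ K i) → der X t ≤ K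

theorem PT_empty (T : Set G) (t : ℕ) : PT L T (∅ : Set G) t := by
  intro X K hX _ _ _ hS
  exact le_trans (der_le hX t) (fun i => hS i (Set.notMem_empty i))

theorem PT.mono {T S S' : Set G} {t t' : ℕ} (h : PT L T S t) (hS : S' ⊆ S) (ht : t ≤ t') :
    PT L T S' t' := by
  intro X K hX hX0 hK hKX hSS
  exact le_trans (der_anti hX ht) (h X K hX hX0 hK hKX fun i hi => hSS i (fun h' => hi (hS h')))

/-- only the elements of `T` matter -/
theorem PT.of_inter {T S S' : Set G} {t : ℕ} (h : PT L T S' t) (hS : ∀ i ∈ S, i ∈ T → i ∈ S') :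
    PT L T S t := by
  intro X K hX hX0 hK hKX hSS
  refine h X K hX hX0 hK hKX ?_
  intro i hi
  by_cases hT : i ∈ T
  · exact hSS i fun h' => hi (hS i h' hT)
  · rw [hX0 i hT]; exact bot_le

theorem sub_supp {T : Set G} {X K : G → AddSubgroup L} (h : K ≤ X) (hX : ∀ i, i ∉ T → X i = ⊥) :
    ∀ i, i ∉ T → K i = ⊥ := fun i hi => le_bot_iff.1 (hX i hi ▸ h i)

/-- The key step. -/
theorem keyT {T S : Set G} {t : ℕ} (hP : ∀ b ∈ S, PT L T (S \ {b}) t)
    {X K V V0 : G → AddSubgroup L}
    (hX : Closed X) (hX0 : ∀ i, i ∉ T → X i = ⊥)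
    (hS : ∀ i, i ∉ S → X i ≤ K i) (hV : star V X ≤ V) (hV0 : V 0 = ⊥)
    (hVS : ∀ i, i ∉ S → V i ≤ V0 i) :
    star V (der X t) ≤ V0 ⊔ star V K := by
  refine star_le.2 ?_
  intro i j v hv x hx
  by_cases hb : i + j ∈ S
  · have hA : der X t ≤ adm X V (i + j) ((V0 ⊔ star V K) (i + j)) := by
      refine hP _ hb X _ hX hX0 (adm_closed hX hV _ _) (fun k y hy => hy.1) ?_
      intro k hk y hy
      refine ⟨hy, ?_⟩
      intro w hw
      by_cases hkb : k = i + j
      · subst hkb
        rw [sub_self, hV0] at hw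
        have : w = 0 := hw
        subst this
        rw [zero_lie]; exact zero_mem _
      · have hkS : k ∉ S := fun h => hk ⟨h, hkb⟩
        have hyK : y ∈ K k := hS k hkS hy
        have := mem_star hw hyK
        rw [sub_add_cancel] at this
        exact (le_sup_right : star V K ≤ V0 ⊔ star V K) _ this
    have h1 := (hA j hx).2 v
    rw [add_sub_cancel_right] at h1
    exact h1 hv
  · have h1 : ⁅v, x⁆ ∈ V (i + j) := star_le.1 hV _ _ _ hv _ (der_le hX t j hx)
    exact (le_sup_left : V0 ≤ V0 ⊔ star V K) _ (hVS _ hb h1)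

/-- Iterated key step. -/
theorem keyT_iter {T S : Set G} {t : ℕ} (hP : ∀ b ∈ S, PT L T (S \ {b}) t)
    {X K V V0 : G → AddSubgroup L}
    (hX : Closed X) (hX0 : ∀ i, i ∉ T → X i = ⊥)
    (hS : ∀ i, i ∉ S → X i ≤ K i) (hV : star V X ≤ V) (hV0 : V 0 = ⊥)
    (hV0K : star V0 K ≤ V0) (hVS : ∀ i, i ∉ S → V i ≤ V0 i) (m : ℕ) :
    act V (der X t) m ≤ V0 ⊔ act V K m := by
  induction m with
  | zero => exact le_sup_right
  | succ m ih =>
    set D := der X t with hD
    have hst : star (act V D m) X ≤ act V D m := star_act_le hV (star_der_le hX t) m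
    have hVD : star V D ≤ V := le_trans (star_mono le_rfl (der_le hX t)) hV
    have hle : act V D m ≤ V := act_le_of_stable hVD m
    have h1 : star (act V D m) D ≤ (act V D m ⊓ V0) ⊔ star (act V D m) K := by
      refine keyT hP hX hX0 hS hst (le_bot_iff.1 (hV0 ▸ hle 0)) ?_
      intro i hi
      exact le_inf le_rfl (le_trans (hle i) (hVS i hi))
    refine le_trans h1 (sup_le (le_trans inf_le_right le_sup_left) ?_)
    refine le_trans (star_mono ih le_rfl) ?_
    exact star_sup_le (le_trans hV0K le_sup_left) le_sup_right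

/-- the recursive step for `PT` -/
theorem PT_step {T S : Set G} (hT : (0 : G) ∉ T) {t j : ℕ} (hP : ∀ b ∈ S, PT L T (S \ {b}) t)
    (hν : ∀ X K : G → AddSubgroup L, Closed X → (∀ i, i ∉ T → X i = ⊥) → Closed K → K ≤ X →
      (∀ i, i ∉ S → X i ≤ K i) → act X K (2 ^ j) ≤ K) : PT L T S (t + j + 1) := by
  intro X K hX hX0 hK hKX hS
  have h1 : act X (der X t) (2 ^ j) ≤ K := by
    refine le_trans (keyT_iter hP hX hX0 hS hX (hX0 0 hT) hK hS (2 ^ j)) ?_
    exact sup_le le_rfl (hν X K hX hX0 hK hKX hS)
  have h2 : der X (t + j + 1) = star (der (der X t) j) (der (der X t) j) := by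
    rw [der_succ, der_add]
  rw [h2]
  refine le_trans (star_mono ?_ le_rfl) (le_trans (star_der_le_act (der X t) j X) h1)
  exact le_trans (der_le (closed_der hX t) j) (der_le hX t)

/-- `S` contains no progression `p, p + i, p + 2 i, ...` with `i ∈ T`. -/
def AF (T S : Set G) : Prop := ∀ p ∈ S, ∀ i ∈ T, ∃ m : ℕ, p + m • i ∉ S

theorem AF.mono {T S S' : Set G} (h : AF T S) (hS : S' ⊆ S) : AF T S' := by
  intro p hp i hi
  obtain ⟨m, hm⟩ := h p (hS hp) i hi
  exact ⟨m, fun h' => hm (hS h')⟩

/-- Index of a family acting commutatively on a section with weights in a coset free set. -/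
theorem abelian_indexT {T : Set G} (d : ℕ) : ∀ (S : Finset G), S.card ≤ d → AF T (S : Set G) →
    ∀ V V0 C : G → AddSubgroup L, (∀ i, i ∉ T → C i = ⊥) → V0 ≤ V → star V C ≤ V →
    star V0 C ≤ V0 →
    (∀ i j k, ∀ v ∈ V i, ∀ x ∈ C j, ∀ y ∈ C k, ⁅⁅v, x⁆, y⁆ - ⁅⁅v, y⁆, x⁆ ∈ V0 (i + j + k)) →
    (∀ i, i ∉ S → V i ≤ V0 i) → act V C d ≤ V0 := by
  classical
  induction d with
  | zero =>
    intro S hd _ V V0 C _ _ _ _ _ hS i
    have : S = ∅ := Finset.card_eq_zero.1 (Nat.le_zero.1 hd)
    subst this
    exact hS i (Finset.notMem_empty i)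
  | succ d ih =>
    intro S hd hAF V V0 C hC0 h0V hVC hV0C hcomm hS
    by_cases hSe : S = ∅
    · subst hSe
      refine le_trans (act_le_of_stable hVC (d + 1)) ?_
      intro i
      exact hS i (Finset.notMem_empty i)
    rw [act_succ']
    have hsub : star V C ≤ ⨆ j, part V V0 C j := by
      intro i
      refine iSup_le fun j => ?_
      rw [iSup_apply]
      refine le_trans ?_ (le_iSup (fun j' => part V V0 C j' i) (i - j))
      unfold part
      have e : i - (i - j) = j := by abel
      rw [e]
      exact le_sup_right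
    refine le_trans (act_mono hsub le_rfl d) (act_iSup_le d ?_)
    intro j
    by_cases hj : j ∈ T
    · have hpV : part V V0 C j ≤ V := by
        intro i
        refine sup_le (h0V i) (br_le.2 ?_)
        intro a ha b hb
        have := star_le.1 hVC _ _ _ ha _ hb
        rwa [sub_add_cancel] at this
      have hcard : (S.filter (fun i => i - j ∈ S)).card ≤ d := by
        have hlt : (S.filter (fun i => i - j ∈ S)).card < S.card := by
          refine Finset.card_lt_card (Finset.filter_ssubset.2 ?_)
          by_contra hcon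
          push Not at hcon
          -- then `S - j = S`
          have himg : S.image (fun i => i - j) = S := by
            refine Finset.eq_of_subset_of_card_le ?_ ?_
            · intro x hx
              obtain ⟨i, hi, rfl⟩ := Finset.mem_image.1 hx
              exact hcon i hi
            · rw [Finset.card_image_of_injective _ (sub_left_injective)]
          obtain ⟨p, hp⟩ := Finset.nonempty_iff_ne_empty.2 hSe
          obtain ⟨m, hm⟩ := hAF p hp j hj
          apply hm
          clear hm
          induction m with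
          | zero => simpa using hp
          | succ m ihm =>
            have h1 : p + m • j ∈ S.image (fun i => i - j) := by rw [himg]; exact ihm
            obtain ⟨i, hi, he⟩ := Finset.mem_image.1 h1
            have e : p + (m + 1) • j = i := by
              rw [succ_nsmul, ← add_assoc, ← he]; abel
            rw [e]
            exact hi
        omega
      refine ih (S.filter (fun i => i - j ∈ S)) hcard
        (hAF.mono (by intro x hx; exact (Finset.mem_filter.1 hx).1)) (part V V0 C j) V0 C hC0
        (fun i => le_sup_left) ?_ hV0C ?_ ?_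
      · refine star_le.2 ?_
        intro i k x hx y hy
        have hmap : part V V0 C j i ≤ (part V V0 C j (i + k)).comap
            ({ toFun := fun z => ⁅z, y⁆, map_zero' := zero_lie y,
               map_add' := fun a b => add_lie a b y } : L →+ L) := by
          refine sup_le ?_ (br_le.2 ?_)
          · intro z hz
            exact (le_sup_left : V0 (i + k) ≤ part V V0 C j (i + k)) (star_le.1 hV0C _ _ _ hz _ hy)
          · intro a ha b hb
            change ⁅⁅a, b⁆, y⁆ ∈ part V V0 C j (i + k)
            have h1 := hcomm _ _ _ a ha b hb y hy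
            have h2 : ⁅⁅a, y⁆, b⁆ ∈ br (V (i + k - j)) (C j) := by
              refine mem_br ?_ hb
              have := star_le.1 hVC _ _ _ ha _ hy
              have e : i - j + k = i + k - j := by abel
              rwa [e] at this
            have e3 : i - j + j + k = i + k := by abel
            rw [e3] at h1
            have e4 : ⁅⁅a, b⁆, y⁆ = (⁅⁅a, b⁆, y⁆ - ⁅⁅a, y⁆, b⁆) + ⁅⁅a, y⁆, b⁆ := by abel
            rw [e4]
            exact add_mem (AddSubgroup.mem_sup_left h1) (AddSubgroup.mem_sup_right h2)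
        exact hmap hx
      · intro i k l v hv x hx y hy
        exact hcomm i k l v (hpV i hv) x hx y hy
      · intro i hi
        by_cases hiS : i ∈ S
        · have hij : i - j ∉ S := fun h => hi (Finset.mem_filter.2 ⟨hiS, h⟩)
          refine sup_le le_rfl (br_le.2 ?_)
          intro a ha b hb
          have := star_le.1 hV0C _ _ _ (hS _ hij ha) _ hb
          rwa [sub_add_cancel] at this
        · exact le_trans (hpV i) (hS i hiS)
    · have h1 : part V V0 C j ≤ V0 := by
        intro i
        unfold part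
        rw [hC0 j hj]
        refine sup_le le_rfl (br_le.2 ?_)
        intro a _ b hb
        have : b = 0 := hb
        subst this
        rw [lie_zero]; exact zero_mem _
      exact le_trans (act_mono h1 le_rfl d) (act_le_of_stable hV0C d)

/-- Index of a soluble family on a section with weights in a coset free set. -/
theorem solv_indexT {T : Set G} {S : Finset G} {d : ℕ} (hd : S.card ≤ d)
    (hAF : AF T (S : Set G)) (s : ℕ) :
    ∀ V V0 K : G → AddSubgroup L, Closed K → (∀ i, i ∉ T → K i = ⊥) → V0 ≤ V → star V K ≤ V →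
    star V0 K ≤ V0 →
    (∀ i, i ∉ S → V i ≤ V0 i) → star V (der K s) ≤ V0 → act V K (d ^ s) ≤ V0 := by
  induction s with
  | zero =>
    intro V V0 K _ _ _ _ _ _ h
    rw [pow_zero]
    exact h
  | succ s ih =>
    intro V V0 K hK hK0 h0V hVK hV0K hS hder
    set C := der K s with hC
    have hCK : C ≤ K := der_le hK s
    have hVC : star V C ≤ V := le_trans (star_mono le_rfl hCK) hVK
    have hV0C : star V0 C ≤ V0 := le_trans (star_mono le_rfl hCK) hV0K
    have hC0 : ∀ i, i ∉ T → C i = ⊥ := sub_supp hCK hK0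
    have hact : act V C d ≤ V0 := by
      refine abelian_indexT d S hd hAF V V0 C hC0 h0V hVC hV0C ?_ hS
      intro i j k v hv x hx y hy
      rw [← jac]
      have e : i + j + k = i + (j + k) := by abel
      rw [e]
      refine star_le.1 hder _ _ _ hv _ ?_
      rw [der_succ]
      exact mem_star hx hy
    -- the filtration
    have hW : ∀ j, star (V0 ⊔ act V C j) K ≤ V0 ⊔ act V C j := by
      intro j
      refine star_sup_le (le_trans hV0K le_sup_left) (le_trans ?_ le_sup_right)
      exact star_act_le hVK (star_der_le hK s) j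
    have hWle : ∀ j, V0 ⊔ act V C j ≤ V := fun j => sup_le h0V (act_le_of_stable hVC j)
    have hstep : ∀ j, act (V0 ⊔ act V C j) K (d ^ s) ≤ V0 ⊔ act V C (j + 1) := by
      intro j
      refine ih _ _ K hK hK0 ?_ (hW j) (hW (j + 1)) ?_ ?_
      · exact sup_le_sup le_rfl (act_anti hVC (Nat.le_succ j))
      · intro i hi
        exact le_trans (hWle j i) (le_trans (hS i hi) (le_sup_left (a := V0 i)))
      · refine star_sup_le (le_trans hV0C le_sup_left) ?_
        exact le_sup_right
    have hiter : ∀ j, act V K (j * d ^ s) ≤ V0 ⊔ act V C j := by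
      intro j
      induction j with
      | zero => rw [zero_mul]; exact le_sup_right
      | succ j ihj =>
        rw [Nat.succ_mul, act_add]
        exact le_trans (act_mono ihj le_rfl _) (hstep j)
    have := hiter d
    rw [pow_succ, mul_comm]
    exact le_trans this (sup_le le_rfl hact)

/-- The ambiguity lemma. -/
theorem ambT {π : ℤ →+ G} {lam : G → ℤ} {S : Finset G} {T U : Set G} {l : G → ℤ} {d τ : ℕ}
    (hT : (0 : G) ∉ T)
    (hd : S.card ≤ d + 1) (hlam : ∀ p ∈ S, π (lam p) = p) (hl : ∀ i ∈ U, π (l i) = i)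
    (hU : ∀ p ∈ S, ∀ i ∈ U, p + i ∈ S → lam (p + i) = lam p + l i)
    (hP : PT L T Uᶜ τ) (V V0 K : G → AddSubgroup L) (hK : Closed K)
    (hKT : ∀ i, i ∉ T → K i = ⊥) (h0V : V0 ≤ V)
    (hVK : star V K ≤ V) (hV0K : star V0 K ≤ V0) (hoff : ∀ i, i ∉ S → V i ≤ V0 i) :
    star V (der K (τ + 2 * d)) ≤ V0 := by
  classical
  have hK0 : K 0 = ⊥ := hKT 0 hT
  -- the subring generated by the unambiguous components
  set Q : G → Set L := fun i => {x | i ∈ U ∧ x ∈ K i} with hQ
  set R : G → AddSubgroup L := gen Q with hR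
  have hRc : Closed R := gen_closed Q
  have hRK : R ≤ K := gen_le hK fun i x hx => hx.2
  have hKR : der K τ ≤ R := by
    refine hP K R hK hKT hRc hRK ?_
    intro i hi x hx
    have hi' : i ∈ U := not_not.1 hi
    exact subset_gen Q i ⟨hi', hx⟩
  set Qz : ℤ → Set L := fun z => {x | ∃ i ∈ U, l i = z ∧ x ∈ K i} with hQz
  set Rz : ℤ → AddSubgroup L := gen Qz with hRz
  have hRzc : Closed Rz := gen_closed Qz
  have hKπ : Closed (fun z : ℤ => K (π z)) := by
    refine closed_iff.2 ?_
    intro i j x hx y hy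
    change ⁅x, y⁆ ∈ K (π (i + j))
    rw [map_add]
    exact hK.mem hx hy
  have hRzK : ∀ z, Rz z ≤ K (π z) := by
    have : Rz ≤ (fun z : ℤ => K (π z)) := by
      refine gen_le hKπ ?_
      rintro z x ⟨i, hi, hiz, hx⟩
      change x ∈ K (π z)
      rw [← hiz, hl i hi]
      exact hx
    exact this
  have hRz0 : Rz 0 = ⊥ := by
    refine le_bot_iff.1 ?_
    have := hRzK 0
    rwa [map_zero, hK0] at this
  have hRpush : R ≤ push π Rz := by
    refine gen_le (push_closed π hRzc) ?_
    rintro i x ⟨hi, hx⟩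
    have h1 : x ∈ Rz (l i) := subset_gen Qz (l i) ⟨i, hi, rfl, hx⟩
    have h2 := le_push π Rz (l i) h1
    rwa [hl i hi] at h2
  -- the lifted modules
  set Vz : ℤ → AddSubgroup L := fun z => if π z ∈ S ∧ lam (π z) = z then V (π z) else V0 (π z)
    with hVz
  set V0z : ℤ → AddSubgroup L := fun z => V0 (π z) with hV0z
  have hVz1 : ∀ z, π z ∈ S → lam (π z) = z → Vz z = V (π z) := by
    intro z h1 h2
    simp only [hVz, h1, h2, and_self, if_true]
  have hVz2 : ∀ z, ¬ (π z ∈ S ∧ lam (π z) = z) → Vz z = V0 (π z) := by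
    intro z h
    simp only [hVz, if_neg h]
  have h0Vz : V0z ≤ Vz := by
    intro z
    by_cases h : π z ∈ S ∧ lam (π z) = z
    · rw [hVz1 z h.1 h.2]; exact h0V _
    · rw [hVz2 z h]
  have hV0zR : star V0z Rz ≤ V0z := by
    refine star_le.2 ?_
    intro i j v hv x hx
    change ⁅v, x⁆ ∈ V0 (π (i + j))
    rw [map_add]
    exact star_le.1 hV0K _ _ _ hv _ (hRzK j hx)
  have hVzR : star Vz Rz ≤ Vz := by
    -- the stabiliser
    set Y : ℤ → AddSubgroup L := fun z =>
      { carrier := {x | ∀ w, ∀ v ∈ Vz w, ⁅v, x⁆ ∈ Vz (w + z)}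
        zero_mem' := fun w v _ => by rw [lie_zero]; exact zero_mem _
        add_mem' := fun {a b} ha hb w v hv => by
          rw [lie_add]; exact add_mem (ha w v hv) (hb w v hv)
        neg_mem' := fun {a} ha w v hv => by
          rw [lie_neg]; exact neg_mem (ha w v hv) } with hY
    have hYmem : ∀ z x, x ∈ Y z ↔ ∀ w, ∀ v ∈ Vz w, ⁅v, x⁆ ∈ Vz (w + z) := fun z x => Iff.rfl
    have hYc : Closed Y := by
      refine closed_iff.2 ?_
      intro i j x hx y hy
      rw [hYmem] at hx hy ⊢
      intro w v hv
      rw [jac]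
      refine sub_mem ?_ ?_
      · have := hy _ _ (hx w v hv)
        rwa [add_assoc] at this
      · have := hx _ _ (hy w v hv)
        rwa [add_assoc, add_comm j i] at this
    have hRY : Rz ≤ Y := by
      refine gen_le hYc ?_
      rintro z x ⟨i, hi, hiz, hx⟩
      change x ∈ Y z
      rw [hYmem]
      intro w v hv
      have hπz : π z = i := by rw [← hiz]; exact hl i hi
      by_cases h : π w ∈ S ∧ lam (π w) = w
      · rw [hVz1 w h.1 h.2] at hv
        have h3 : ⁅v, x⁆ ∈ V (π w + i) := star_le.1 hVK _ _ _ hv _ hx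
        have h4 : π (w + z) = π w + i := by rw [map_add, hπz]
        by_cases h5 : π w + i ∈ S
        · have h6 := hU _ h.1 i hi h5
          rw [hVz1 (w + z) (by rw [h4]; exact h5) (by rw [h4, h6, h.2, hiz]), h4]
          exact h3
        · apply h0Vz
          change ⁅v, x⁆ ∈ V0 (π (w + z))
          rw [h4]
          exact hoff _ h5 h3
      · rw [hVz2 w h] at hv
        apply h0Vz
        change ⁅v, x⁆ ∈ V0 (π (w + z))
        rw [map_add, hπz]
        exact star_le.1 hV0K _ _ _ hv _ hx
    refine star_le.2 ?_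
    intro i j v hv x hx
    exact (hYmem j x).1 (hRY j hx) i v hv
  have hcard : (S.image lam).card ≤ d + 1 := le_trans Finset.card_image_le hd
  have hoffz : ∀ z, z ∉ S.image lam → Vz z ≤ V0z z := by
    intro z hz
    rw [hVz2 z]
    rintro ⟨h1, h2⟩
    exact hz (Finset.mem_image.2 ⟨π z, h1, h2⟩)
  have hz := z_window d (S.image lam) hcard Vz V0z Rz hRzc hRz0 h0Vz hVzR hV0zR hoffz
  refine star_le.2 ?_
  intro p j v hv x hx
  by_cases hp : p ∈ S
  · have h1 : x ∈ push π (der Rz (2 * d)) j := by
      have h2 : der K (τ + 2 * d) ≤ push π (der Rz (2 * d)) := by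
        rw [der_add]
        exact le_trans (der_mono (le_trans hKR hRpush) _) (der_push_le π Rz _)
      exact h2 j hx
    have h3 : push π (der Rz (2 * d)) j ≤ (V0 (p + j)).comap
        ({ toFun := fun z => ⁅v, z⁆, map_zero' := lie_zero v,
           map_add' := fun a b => lie_add v a b } : L →+ L) := by
      refine iSup_le ?_
      rintro ⟨w, hw⟩ y hy
      change ⁅v, y⁆ ∈ V0 (p + j)
      have h4 : v ∈ Vz (lam p) := by
        rw [hVz1 (lam p) (by rw [hlam p hp]; exact hp) (by rw [hlam p hp]), hlam p hp]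
        exact hv
      have h5 : ⁅v, y⁆ ∈ V0 (π (lam p + w)) := star_le.1 hz _ _ _ h4 _ hy
      rwa [map_add, hlam p hp, hw] at h5
    exact h3 h1
  · exact star_le.1 hV0K _ _ _ (hoff p hp hv) _ (der_le hK _ _ hx)

/-- the recursion -/
theorem rec_boundT {π : ℤ →+ G} {lam : G → ℤ} {S : Finset G} {T U : Set G} {l : G → ℤ}
    {d τ lg : ℕ} (hT : (0 : G) ∉ T)
    (hd : S.card ≤ d + 1) (hlam : ∀ p ∈ S, π (lam p) = p) (hl : ∀ i ∈ U, π (l i) = i)
    (hU : ∀ p ∈ S, ∀ i ∈ U, p + i ∈ S → lam (p + i) = lam p + l i)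
    (hP : PT L T Uᶜ τ) (hAF : AF T (S : Set G)) (hlg : S.card ≤ 2 ^ lg) (c : ℕ) :
    ∀ S' : Finset G, S' ⊆ S → S'.card = c →
      PT L T (S' : Set G) (c * (1 + (τ + 2 * d) * lg)) := by
  classical
  induction c with
  | zero =>
    intro S' _ hc
    have : S' = ∅ := Finset.card_eq_zero.1 hc
    subst this
    rw [Finset.coe_empty]
    exact PT_empty _ _
  | succ c ih =>
    intro S' hS' hc
    have hb : ∀ b ∈ (S' : Set G), PT L T ((S' : Set G) \ {b}) (c * (1 + (τ + 2 * d) * lg)) := by
      intro b hb
      rw [← Finset.coe_erase]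
      refine ih (S'.erase b) (fun x hx => hS' (Finset.mem_of_mem_erase hx)) ?_
      rw [Finset.card_erase_of_mem hb, hc]
      rfl
    have hstep := PT_step (L := L) (j := (τ + 2 * d) * lg) hT hb ?_
    · refine hstep.mono le_rfl ?_
      ring_nf
      omega
    · intro X K hX hX0 hK hKX hoff
      have hcard : S'.card ≤ 2 ^ lg := le_trans (Finset.card_le_card hS') hlg
      have hK0 : ∀ i, i ∉ T → K i = ⊥ := sub_supp hKX hX0
      have h1 : star X K ≤ X := le_trans (star_mono le_rfl hKX) hX
      have h2 : star X (der K (τ + 2 * d)) ≤ K := by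
        refine ambT hT hd hlam hl hU hP X K K hK hK0 hKX h1 hK ?_
        intro i hi
        exact hoff i fun h => hi (hS' h)
      have h3 := solv_indexT hcard (hAF.mono (by exact_mod_cast hS')) (τ + 2 * d) X K K hK hK0 hKX
        h1 hK (fun i hi => hoff i hi) h2
      rw [← pow_mul, mul_comm] at h3
      exact h3

end Pool.Agent.H22.Krek
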