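import Pool.Agent.H22.Krek.Rel
import Pool.Agent.H75.Krek.Deriv
import Pool.Agent.H24.Krek.Final

/-!
# Windows in `ZMod n` and gradings with few nonzero components
-/

set_option autoImplicit false

namespace Pool.Agent.H22.Krek

open Pool.Agent.H75.Krek Pool.Agent.H24.Krek

variable {L : Type*} [LieRing L]

/-- the windows, relative to `T` -/
theorem PT_win {n : ℕ} [NeZero n] (T : Finset (ZMod n)) (hT : (0 : ZMod n) ∉ T) (g0 : ℕ)
    (hAF : ∀ g a, g0 ≤ g →
      AF (T : Set (ZMod n)) ((win n a (n - g) ∩ T : Finset (ZMod n)) : Set (ZMod n)))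
    (J : ℕ) : ∀ (g : ℕ) (a : ZMod n), g0 ≤ g → n + 1 ≤ 2 ^ J * (g + 1) →
      PT L (T : Set (ZMod n)) (win n a (n - g) : Set (ZMod n)) (B T.card J) := by
  induction J with
  | zero =>
    intro g a _ hJ
    have : win n a (n - g) = ∅ := by
      refine Finset.eq_empty_of_forall_notMem ?_
      intro p hp
      have := mem_win.1 hp
      simp only [pow_zero, one_mul] at hJ
      omega
    rw [this, Finset.coe_empty]
    exact PT_empty _ _
  | succ J ih =>
    intro g a hg hJ
    by_cases hgn : n ≤ g
    · have : win n a (n - g) = ∅ := by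
        refine Finset.eq_empty_of_forall_notMem ?_
        intro p hp
        have := mem_win.1 hp
        omega
      rw [this, Finset.coe_empty]
      exact PT_empty _ _
    have hgn' : g < n := not_le.1 hgn
    set l := n - g with hl
    have hlg : l + g = n := by omega
    have hAFl := hAF g a hg
    have hP' : PT L (T : Set (ZMod n))
        (win n ((g + 1 : ℕ) : ZMod n) (n - (2 * g + 1)) : Set (ZMod n)) (B T.card J) := by
      refine ih (2 * g + 1) _ (by omega) ?_
      rw [pow_succ] at hJ
      calc n + 1 ≤ 2 ^ J * 2 * (g + 1) := hJ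
        _ = 2 ^ J * (2 * g + 1 + 1) := by ring
    set U : Set (ZMod n) := {i | i.val ≤ g ∨ l ≤ i.val} with hU
    have hUc : Uᶜ ⊆ (win n ((g + 1 : ℕ) : ZMod n) (n - (2 * g + 1)) : Set (ZMod n)) := by
      intro i hi
      have hi' : ¬ (i.val ≤ g ∨ l ≤ i.val) := hi
      push Not at hi'
      obtain ⟨h1, h2⟩ := hi'
      refine mem_win.2 ?_
      have h3 : i - ((g + 1 : ℕ) : ZMod n) = ((i.val - (g + 1) : ℕ) : ZMod n) := by
        rw [Nat.cast_sub (by omega), ZMod.natCast_val, ZMod.cast_id', id_eq]
      have h4 : i.val < n := ZMod.val_lt i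
      rw [h3, ZMod.val_natCast, Nat.mod_eq_of_lt (by omega)]
      omega
    have hPU : PT L (T : Set (ZMod n)) Uᶜ (B T.card J) := hP'.mono hUc le_rfl
    -- the lift
    let π : ℤ →+ ZMod n := (Int.castRingHom (ZMod n)).toAddMonoidHom
    have hπ : ∀ z : ℤ, π z = (z : ZMod n) := fun z => rfl
    let lam : ZMod n → ℤ := fun p => (a.val : ℤ) + ((p - a).val : ℤ)
    let ll : ZMod n → ℤ := fun i => if i.val ≤ g then (i.val : ℤ) else (i.val : ℤ) - n
    have hcard : (win n a l ∩ T).card ≤ T.card := Finset.card_le_card Finset.inter_subset_right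
    have hrec := rec_boundT (L := L) (π := π) (lam := lam) (S := win n a l ∩ T)
      (T := (T : Set (ZMod n))) (U := U) (l := ll)
      (d := T.card) (τ := B T.card J) (lg := Nat.clog 2 T.card) hT (by omega) ?_ ?_ ?_ hPU hAFl ?_
      (win n a l ∩ T).card (win n a l ∩ T) (Finset.Subset.refl _) rfl
    · refine PT.of_inter (S' := ((win n a l ∩ T : Finset (ZMod n)) : Set (ZMod n))) ?_ ?_
      · refine hrec.mono le_rfl ?_
        simp only [B]
        exact Nat.mul_le_mul_right _ hcard
      · intro i hi hiT
        exact Finset.mem_inter.2 ⟨hi, hiT⟩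
    · intro p _
      rw [hπ]
      simp only [lam]
      push_cast
      rw [ZMod.natCast_zmod_val, ZMod.natCast_zmod_val]
      ring
    · intro i _
      rw [hπ]
      simp only [ll]
      split_ifs
      · rw [Int.cast_natCast, ZMod.natCast_val, ZMod.cast_id', id_eq]
      · push_cast
        rw [ZMod.natCast_val, ZMod.cast_id', id_eq, CharP.cast_eq_zero, sub_zero]
    · intro p hp i hi hpi
      have h1 : (p - a).val < l := mem_win.1 (Finset.mem_inter.1 hp).1
      have h2 : (p + i - a).val < l := mem_win.1 (Finset.mem_inter.1 hpi).1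
      have h3 : (p + i - a) = (p - a) + i := by ring
      have h4 : (p + i - a).val = ((p - a).val + i.val) % n := by
        rw [h3, ZMod.val_add]
      have hi' : i.val ≤ g ∨ l ≤ i.val := hi
      have h5 : i.val < n := ZMod.val_lt i
      simp only [lam, ll]
      rcases lt_or_ge ((p - a).val + i.val) n with h6 | h6
      · rw [Nat.mod_eq_of_lt h6] at h4
        have h7 : i.val ≤ g := by
          rcases hi' with h | h
          · exact h
          · omega
        rw [if_pos h7, h4]
        push_cast
        ring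
      · have h7 : ((p - a).val + i.val) % n = (p - a).val + i.val - n := by
          rw [Nat.mod_eq_sub_mod h6, Nat.mod_eq_of_lt (by omega)]
        rw [h7] at h4
        have h8 : ¬ i.val ≤ g := by omega
        rw [if_neg h8]
        have h9 : ((p + i - a).val : ℤ) = (p - a).val + i.val - n := by
          rw [h4]; push_cast [Nat.cast_sub h6]; ring
        rw [h9]
        ring
    · exact le_trans hcard (Nat.le_pow_clog (by norm_num) _)

/-- a set of `d` residues modulo `n` misses `(n - 1) / d` consecutive residues -/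
theorem exists_gap {n : ℕ} [NeZero n] (T : Finset (ZMod n)) :
    ∃ a : ZMod n, T ⊆ win n a (n - (n - 1) / T.card) := by
  classical
  set g := (n - 1) / T.card with hg
  have hn : 0 < n := Nat.pos_of_ne_zero (NeZero.ne n)
  have hgn : g < n := lt_of_le_of_lt (Nat.div_le_self _ _) (by omega)
  have hlt : T.card * g < n := by
    have := Nat.mul_div_le (n - 1) T.card
    rw [← hg] at this
    omega
  set bad : Finset (ZMod n) := T.biUnion fun t => (Finset.range g).image fun k : ℕ => t - (k : ZMod n)
    with hbad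
  have hcard : bad.card ≤ T.card * g := by
    refine Finset.card_biUnion_le_card_mul _ _ _ ?_
    intro t _
    exact le_trans Finset.card_image_le (by rw [Finset.card_range])
  obtain ⟨a, ha⟩ : ∃ a : ZMod n, a ∉ bad := by
    by_contra hcon
    push Not at hcon
    have h1 : (Finset.univ : Finset (ZMod n)) ⊆ bad := fun a _ => hcon a
    have h2 := Finset.card_le_card h1
    rw [Finset.card_univ, ZMod.card] at h2
    omega
  refine ⟨a + (g : ZMod n), ?_⟩
  intro t ht
  refine mem_win.2 ?_
  by_contra hcon
  push Not at hcon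
  set v := (t - (a + (g : ZMod n))).val with hv
  have hvn : v < n := ZMod.val_lt _
  apply ha
  refine Finset.mem_biUnion.2 ⟨t, ht, Finset.mem_image.2 ⟨v - (n - g), ?_, ?_⟩⟩
  · rw [Finset.mem_range]
    omega
  · have h1 : ((v : ℕ) : ZMod n) = t - (a + (g : ZMod n)) := by
      rw [hv, ZMod.natCast_zmod_val]
    have h2 : ((v - (n - g) : ℕ) : ZMod n) = (v : ZMod n) + g := by
      have e : v - (n - g) + n = v + g := by omega
      have := congrArg (fun z : ℕ => (z : ZMod n)) e
      simpa using this
    rw [h2, h1]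
    ring

/-- Kreknin's doubling step -/
theorem PT_double {n : ℕ} [NeZero n] (T : Finset (ZMod n)) (hT : (0 : ZMod n) ∉ T) {k t : ℕ}
    (hk1 : 1 ≤ k) (hkn : k + 1 ≤ n)
    (hP : PT L (T : Set (ZMod n)) (win n 1 (k - 1) : Set (ZMod n)) t) :
    PT L (T : Set (ZMod n)) (win n 1 k : Set (ZMod n)) (2 * t + 1) := by
  have hval : ∀ i : ZMod n, i ≠ 0 → (i - 1).val = i.val - 1 := by
    intro i hi
    have h1 : i.val ≠ 0 := fun h0 => hi ((ZMod.val_eq_zero i).1 h0)
    have h2 : i - 1 = ((i.val - 1 : ℕ) : ZMod n) := by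
      rw [Nat.cast_sub (by omega), ZMod.natCast_val, ZMod.cast_id', id_eq, Nat.cast_one]
    have h3 : i.val < n := ZMod.val_lt i
    rw [h2, ZMod.val_natCast, Nat.mod_eq_of_lt (by omega)]
  have hval0 : ((0 : ZMod n) - 1).val = n - 1 := by
    have h2 : (0 : ZMod n) - 1 = ((n - 1 : ℕ) : ZMod n) := by
      rw [Nat.cast_sub (by omega), CharP.cast_eq_zero, Nat.cast_one]
    rw [h2, ZMod.val_natCast, Nat.mod_eq_of_lt (by omega)]
  have hwin : ∀ (m : ℕ), m + 1 ≤ n → ∀ i : ZMod n, i ∈ win n 1 m ↔ 1 ≤ i.val ∧ i.val ≤ m := by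
    intro m hm i
    rw [mem_win]
    by_cases hi : i = 0
    · subst hi
      rw [hval0, ZMod.val_zero]
      omega
    · rw [hval i hi]
      have h1 : i.val ≠ 0 := fun h0 => hi ((ZMod.val_eq_zero i).1 h0)
      omega
  intro X K hX hXT hK hKX hoff
  have hX0 : X 0 = ⊥ := hXT 0 (by exact_mod_cast hT)
  have hkval : ((k : ℕ) : ZMod n).val = k := by
    rw [ZMod.val_natCast, Nat.mod_eq_of_lt (by omega)]
  have hnk : ∀ i : ZMod n, k < i.val → X i ≤ K i := by
    intro i hi
    refine hoff i ?_
    intro h
    have := ((hwin k hkn i).1 h).2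
    omega
  -- step 1
  have hstep1 : der X t ≤ adm X X ((k : ℕ) : ZMod n) (K ((k : ℕ) : ZMod n)) := by
    refine hP X _ hX hXT (adm_closed hX hX _ _) (fun i x hx => hx.1) ?_
    intro i hi x hx
    refine ⟨hx, ?_⟩
    intro v hv
    have hi' : ¬ (1 ≤ i.val ∧ i.val ≤ k - 1) := fun h => hi ((hwin (k - 1) (by omega) i).2 h)
    by_cases hi0 : i = 0
    · subst hi0
      rw [hX0] at hx
      have : x = 0 := hx
      subst this
      rw [lie_zero]; exact zero_mem _
    · have h1 : i.val ≠ 0 := fun h0 => hi0 ((ZMod.val_eq_zero i).1 h0)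
      by_cases hik : i = ((k : ℕ) : ZMod n)
      · subst hik
        rw [sub_self, hX0] at hv
        have : v = 0 := hv
        subst this
        rw [zero_lie]; exact zero_mem _
      · have h2 : i.val ≠ k := by
          intro h
          apply hik
          rw [← h, ZMod.natCast_val, ZMod.cast_id', id_eq]
        have h3 : k < i.val := by omega
        have h4 : i.val < n := ZMod.val_lt i
        have h5 : (((k : ℕ) : ZMod n) - i) = ((n + k - i.val : ℕ) : ZMod n) := by
          rw [Nat.cast_sub (by omega), ZMod.natCast_zmod_val, Nat.cast_add,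
            CharP.cast_eq_zero (ZMod n) n, zero_add]
        have h6 : (((k : ℕ) : ZMod n) - i).val = n + k - i.val := by
          rw [h5, ZMod.val_natCast, Nat.mod_eq_of_lt (by omega)]
        have h7 : v ∈ K (((k : ℕ) : ZMod n) - i) := hnk _ (by rw [h6]; omega) hv
        have h8 : x ∈ K i := hnk _ h3 hx
        have := hK.mem h7 h8
        rwa [sub_add_cancel] at this
  have hstep1' : der X (t + 1) ((k : ℕ) : ZMod n) ≤ K ((k : ℕ) : ZMod n) := by
    have : star (der X t) (der X t) ((k : ℕ) : ZMod n) ≤ K ((k : ℕ) : ZMod n) := by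
      refine iSup_le fun j => br_le.2 ?_
      intro a ha b hb
      have h1 := (hstep1 _ hb).2
      have e : ((k : ℕ) : ZMod n) - (((k : ℕ) : ZMod n) - j) = j := by ring
      rw [e] at h1
      exact h1 a (der_le hX t j ha)
    exact this
  -- step 2
  set X' := der X (t + 1) with hX'
  have hX'c : Closed X' := closed_der hX _
  have hX'X : X' ≤ X := der_le hX _
  have hX'0 : X' 0 = ⊥ := le_bot_iff.1 (hX0 ▸ hX'X 0)
  have hKc : Closed (K ⊓ X') := by
    refine closed_iff.2 ?_
    intro i j x hx y hy
    exact ⟨hK.mem hx.1 hy.1, hX'c.mem hx.2 hy.2⟩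
  have hfin : der X' t ≤ K ⊓ X' := by
    refine hP X' _ hX'c (sub_supp hX'X hXT) hKc inf_le_right ?_
    intro i hi x hx
    refine ⟨?_, hx⟩
    have hi' : ¬ (1 ≤ i.val ∧ i.val ≤ k - 1) := fun h => hi ((hwin (k - 1) (by omega) i).2 h)
    by_cases hik : i = ((k : ℕ) : ZMod n)
    · subst hik
      exact hstep1' hx
    · have h2 : i.val ≠ k := by
        intro h
        apply hik
        rw [← h, ZMod.natCast_val, ZMod.cast_id', id_eq]
      refine hoff i ?_ (hX'X i hx)
      intro h
      have := (hwin k hkn i).1 h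
      omega
  have e : 2 * t + 1 = t + 1 + t := by ring
  rw [e, der_add]
  exact le_trans hfin inf_le_left


end Pool.Agent.H22.Krek
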